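import Mathlib
import Pool.Agent.H925R3.DC.Stubs

/-! Task PRMQ (project DC of helper925): many primes in `(X^(1/2-2δ), X^(1/2-δ)]`. -/

set_option autoImplicit false

namespace Pool.Agent.Helper55.DC

open Finset Filter Topology
open Pool.Agent.H925R3.DC

/-- lower bound for the number of primes -/
theorem prmq_pi (y : ℝ) (hy : 1 < y) :
    ((y - 1) * Real.log 2 - Real.log (y + 2)) / Real.log y ≤ (Nat.primeCounting ⌊y⌋₊ : ℝ) := by
  rw [div_le_iff₀ (Real.log_pos hy)]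
  exact (Chebyshev.psi_ge' (by linarith)).trans (Chebyshev.psi_le_primeCounting_mul_log' y)

theorem prmq_card (δ X : ℝ) (hz : 0 ≤ X ^ (1 / 2 - 2 * δ)) :
    (Nat.primeCounting ⌊X ^ (1 / 2 - δ)⌋₊ : ℝ) - X ^ (1 / 2 - 2 * δ) ≤ ((QQ δ X).card : ℝ) := by
  have h1 : Nat.primeCounting ⌊X ^ (1 / 2 - δ)⌋₊ ≤ (QQ δ X).card + ⌊X ^ (1 / 2 - 2 * δ)⌋₊ := by
    rw [← Nat.primesLE_card_eq_primeCounting]
    have h2 : Nat.primesLE ⌊X ^ (1 / 2 - δ)⌋₊ ⊆ QQ δ X ∪ Icc 1 ⌊X ^ (1 / 2 - 2 * δ)⌋₊ := by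
      intro p hp
      rw [Nat.mem_primesLE] at hp
      obtain ⟨hp1, hp2⟩ := hp
      rw [mem_union]
      by_cases h : X ^ (1 / 2 - 2 * δ) < (p : ℝ)
      · left
        unfold QQ
        rw [mem_filter, mem_Icc]
        exact ⟨⟨hp2.one_lt.le, hp1⟩, hp2, h⟩
      · right
        rw [mem_Icc]
        exact ⟨hp2.one_lt.le, Nat.le_floor (not_lt.1 h)⟩
    calc (Nat.primesLE ⌊X ^ (1 / 2 - δ)⌋₊).card ≤ (QQ δ X ∪ Icc 1 ⌊X ^ (1 / 2 - 2 * δ)⌋₊).card :=
          card_le_card h2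
      _ ≤ (QQ δ X).card + (Icc 1 ⌊X ^ (1 / 2 - 2 * δ)⌋₊).card := card_union_le _ _
      _ = (QQ δ X).card + ⌊X ^ (1 / 2 - 2 * δ)⌋₊ := by simp
  have h3 : (Nat.primeCounting ⌊X ^ (1 / 2 - δ)⌋₊ : ℝ) ≤
      ((QQ δ X).card : ℝ) + (⌊X ^ (1 / 2 - 2 * δ)⌋₊ : ℝ) := by exact_mod_cast h1
  have h4 := Nat.floor_le hz
  linarith

theorem prmq : PRMQ := by
  intro δ hδ hδ8
  have hexp : (0 : ℝ) < 1 / 2 - δ := by linarith
  have hy : Tendsto (fun X : ℝ => X ^ (1 / 2 - δ)) atTop atTop := tendsto_rpow_atTop hexp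
  have e1 : ∀ᶠ w : ℝ in atTop, Real.log w ≤ 1 / 32 * w := by
    have h := Real.isLittleO_log_id_atTop.def (by norm_num : (0 : ℝ) < 1 / 32)
    filter_upwards [h, eventually_ge_atTop (1 : ℝ)] with w hw h1
    rw [Real.norm_eq_abs, Real.norm_eq_abs, abs_of_nonneg (Real.log_nonneg h1), id,
      abs_of_nonneg (by linarith)] at hw
    exact hw
  have e2 : ∀ᶠ X : ℝ in atTop, Real.log X ≤ 1 / 4 * X ^ δ := by
    have h := (isLittleO_log_rpow_atTop hδ).def (by norm_num : (0 : ℝ) < 1 / 4)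
    filter_upwards [h, eventually_ge_atTop (1 : ℝ)] with w hw h1
    rw [Real.norm_eq_abs, Real.norm_eq_abs, abs_of_nonneg (Real.log_nonneg h1),
      abs_of_nonneg (by positivity)] at hw
    exact hw
  have e3 : ∀ᶠ X : ℝ in atTop, Real.log (X ^ (1 / 2 - δ) + 2) ≤ 1 / 32 * (X ^ (1 / 2 - δ) + 2) :=
    (tendsto_atTop_add_const_right atTop (2 : ℝ) hy).eventually e1
  have e4 : ∀ᶠ X : ℝ in atTop, (10 : ℝ) ≤ X ^ (1 / 2 - δ) := hy.eventually_ge_atTop 10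
  obtain ⟨X₀, hX₀⟩ := eventually_atTop.1 (e2.and (e3.and (e4.and (eventually_ge_atTop (3 : ℝ)))))
  refine ⟨X₀, fun X hX => ?_⟩
  obtain ⟨h2, h3, h4, h5⟩ := hX₀ X hX
  set y : ℝ := X ^ (1 / 2 - δ) with hydef
  have hlX : 0 < Real.log X := Real.log_pos (by linarith)
  have hly : Real.log y = (1 / 2 - δ) * Real.log X := Real.log_rpow (by linarith) _
  have hlog2 : (0.6931471803 : ℝ) < Real.log 2 := Real.log_two_gt_d9
  have hz : X ^ (1 / 2 - 2 * δ) * X ^ δ = y := by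
    rw [hydef, ← Real.rpow_add (by linarith)]
    congr 1
    ring
  have hz0 : 0 ≤ X ^ (1 / 2 - 2 * δ) := by positivity
  have hcard := prmq_card δ X hz0
  have hpi := prmq_pi y (by linarith)
  rw [← hydef] at hcard
  set z : ℝ := X ^ (1 / 2 - 2 * δ) with hzdef
  -- numerator
  set A : ℝ := (y - 1) * Real.log 2 - Real.log (y + 2) with hA
  have hA1 : 1 / 4 * y ≤ A := by
    have : (y - 1) * 0.6931471803 ≤ (y - 1) * Real.log 2 :=
      mul_le_mul_of_nonneg_left hlog2.le (by linarith)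
    rw [hA]
    linarith
  have hA2 : 2 * A / Real.log X ≤ A / Real.log y := by
    rw [hly, div_le_div_iff₀ hlX (by positivity)]
    have : 0 ≤ A := by linarith
    have h6 : 2 * ((1 / 2 - δ) * Real.log X) ≤ Real.log X := by nlinarith
    nlinarith
  have hzl : z * Real.log X ≤ 1 / 4 * y := by
    have h6 : z * Real.log X ≤ z * (1 / 4 * X ^ δ) := mul_le_mul_of_nonneg_left h2 hz0
    have h7 : z * (1 / 4 * X ^ δ) = 1 / 4 * (z * X ^ δ) := by ring
    rw [h7, hz] at h6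
    exact h6
  have hzl' : z ≤ 1 / 4 * y / Real.log X := by
    rw [le_div_iff₀ hlX]
    exact hzl
  have hfin : y / (4 * Real.log X) ≤ 2 * A / Real.log X - 1 / 4 * y / Real.log X := by
    rw [← sub_div, div_le_div_iff₀ (by positivity) hlX]
    have h8 : y ≤ (2 * A - 1 / 4 * y) * 4 := by linarith
    have h9 := mul_le_mul_of_nonneg_right h8 hlX.le
    nlinarith
  linarith

end Pool.Agent.Helper55.DC
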